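import Mathlib

/-!
# Module B8a of MP_013a6c_an
Every standard nonatomic probability space is isomorphic mod 0 to the unit interval.
-/

set_option autoImplicit false

open MeasureTheory Set Topology Filter ProbabilityTheory
open scoped ENNReal ProbabilityTheory

namespace KakC

section B8aReal

variable (ν : Measure ℝ)

/-- quantile function -/
noncomputable def B8aQ (u : ℝ) : ℝ := by
  classical
  exact if u ∈ Ioo (0 : ℝ) 1 then sInf {x | u ≤ cdf ν x} else 0

lemma B8a_cont [IsProbabilityMeasure ν] [NullSingletonClass ν] : Continuous (cdf ν) := by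
  rw [continuous_iff_continuousAt]
  intro a
  rw [(monotone_cdf ν).continuousAt_iff_leftLim_eq_rightLim, StieltjesFunction.rightLim_eq]
  have h := (cdf ν).measure_singleton a
  rw [measure_cdf, measure_singleton] at h
  have h' := ENNReal.ofReal_eq_zero.1 h.symm
  exact le_antisymm ((monotone_cdf ν).leftLim_le le_rfl) (by linarith)

variable {ν}

lemma B8a_mem [IsProbabilityMeasure ν] [NullSingletonClass ν] {u : ℝ} (hu : u ∈ Ioo (0 : ℝ) 1) :
    u ≤ cdf ν (B8aQ ν u) := by
  have hclosed : IsClosed {x | u ≤ cdf ν x} := isClosed_le continuous_const (B8a_cont ν)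
  have hne : {x | u ≤ cdf ν x}.Nonempty := by
    have := (tendsto_cdf_atTop ν).eventually (lt_mem_nhds hu.2)
    obtain ⟨x, hx⟩ := this.exists
    exact ⟨x, hx.le⟩
  have hbdd : BddBelow {x | u ≤ cdf ν x} := by
    have := (tendsto_cdf_atBot ν).eventually (gt_mem_nhds hu.1)
    obtain ⟨x, hx⟩ := this.exists
    refine ⟨x, fun y hy => ?_⟩
    by_contra hlt
    exact absurd (lt_of_lt_of_le hx hy) (not_lt.2 (monotone_cdf ν (not_le.1 hlt).le))
  have := hclosed.csInf_mem hne hbdd
  simpa [B8aQ, hu] using this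

lemma B8a_gc [IsProbabilityMeasure ν] [NullSingletonClass ν] {u : ℝ} (hu : u ∈ Ioo (0 : ℝ) 1)
    (x : ℝ) : B8aQ ν u ≤ x ↔ u ≤ cdf ν x := by
  constructor
  · intro h
    exact (B8a_mem hu).trans (monotone_cdf ν h)
  · intro h
    have hbdd : BddBelow {x | u ≤ cdf ν x} := by
      have := (tendsto_cdf_atBot ν).eventually (gt_mem_nhds hu.1)
      obtain ⟨x, hx⟩ := this.exists
      refine ⟨x, fun y hy => ?_⟩
      by_contra hlt
      exact absurd (lt_of_lt_of_le hx hy) (not_lt.2 (monotone_cdf ν (not_le.1 hlt).le))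
    have : sInf {x | u ≤ cdf ν x} ≤ x := csInf_le hbdd h
    simpa [B8aQ, hu] using this

lemma B8a_FQ [IsProbabilityMeasure ν] [NullSingletonClass ν] {u : ℝ} (hu : u ∈ Ioo (0 : ℝ) 1) :
    cdf ν (B8aQ ν u) = u := by
  apply le_antisymm _ (B8a_mem hu)
  have h1 : Tendsto (cdf ν) (𝓝[<] (B8aQ ν u)) (𝓝 (cdf ν (B8aQ ν u))) :=
    ((B8a_cont ν).continuousAt).continuousWithinAt
  refine le_of_tendsto h1 ?_
  filter_upwards [self_mem_nhdsWithin] with x hx
  by_contra hlt
  exact absurd ((B8a_gc hu x).2 (not_le.1 hlt).le) (not_le.2 hx)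

lemma B8a_measQ [IsProbabilityMeasure ν] [NullSingletonClass ν] : Measurable (B8aQ ν) := by
  refine measurable_of_Iic fun x => ?_
  have : B8aQ ν ⁻¹' Iic x = (Ioo (0:ℝ) 1 ∩ Iic (cdf ν x)) ∪ ((Ioo (0:ℝ) 1)ᶜ ∩ {_u | (0:ℝ) ≤ x}) := by
    ext u
    by_cases hu : u ∈ Ioo (0:ℝ) 1
    · simp only [mem_preimage, mem_Iic, mem_union, mem_inter_iff, hu, true_and, mem_compl_iff,
        not_true, false_and, or_false]
      exact B8a_gc hu x
    · have : B8aQ ν u = 0 := by simp only [B8aQ, hu, if_false]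
      simp only [mem_preimage, mem_Iic, mem_union, mem_inter_iff, hu, false_and, mem_compl_iff,
        not_false_iff, true_and, false_or, this]
      rfl
  rw [this]
  exact (measurableSet_Ioo.inter measurableSet_Iic).union
    (measurableSet_Ioo.compl.inter (MeasurableSet.const _))

instance B8a_unif : IsProbabilityMeasure ((volume : Measure ℝ).restrict (Ioo (0:ℝ) 1)) := by
  constructor
  simp

lemma B8a_mapQ [IsProbabilityMeasure ν] [NullSingletonClass ν] :
    ((volume : Measure ℝ).restrict (Ioo (0:ℝ) 1)).map (B8aQ ν) = ν := by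
  have : IsProbabilityMeasure (((volume : Measure ℝ).restrict (Ioo (0:ℝ) 1)).map (B8aQ ν)) :=
    Measure.isProbabilityMeasure_map B8a_measQ.aemeasurable
  refine Measure.ext_of_Iic _ _ fun x => ?_
  rw [Measure.map_apply B8a_measQ measurableSet_Iic,
    Measure.restrict_apply (B8a_measQ measurableSet_Iic), ← ofReal_cdf]
  have : B8aQ ν ⁻¹' Iic x ∩ Ioo (0:ℝ) 1 = Ioo (0:ℝ) 1 ∩ Iic (cdf ν x) := by
    ext u
    simp only [mem_inter_iff, mem_preimage, mem_Iic]
    constructor
    · rintro ⟨h1, h2⟩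
      exact ⟨h2, (B8a_gc h2 x).1 h1⟩
    · rintro ⟨h1, h2⟩
      exact ⟨(B8a_gc h1 x).2 h2, h1⟩
  rw [this]
  have h0 := cdf_nonneg ν x
  have h1 := cdf_le_one ν x
  apply le_antisymm
  · refine (measure_mono (t := Ioc 0 (cdf ν x)) ?_).trans (by rw [Real.volume_Ioc, sub_zero])
    rintro u ⟨h1, h2⟩
    exact ⟨h1.1, h2⟩
  · calc ENNReal.ofReal (cdf ν x) = volume (Ioo 0 (cdf ν x)) := by rw [Real.volume_Ioo, sub_zero]
      _ ≤ _ := measure_mono (by
        rintro u ⟨h3, h4⟩
        exact ⟨⟨h3, h4.trans_le h1⟩, h4.le⟩)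

end B8aReal

/-- every standard nonatomic probability space is isomorphic mod 0 to the unit interval -/
theorem exists_real_model {X : Type*} [MeasurableSpace X] [StandardBorelSpace X] (μ : Measure X)
    [IsProbabilityMeasure μ] [NullSingletonClass μ] :
    ∃ (φ : X → ℝ) (ψ : ℝ → X), MeasurePreserving φ μ (volume.restrict (Ioo (0 : ℝ) 1)) ∧
      MeasurePreserving ψ (volume.restrict (Ioo (0 : ℝ) 1)) μ ∧
      (∀ᵐ x ∂μ, ψ (φ x) = x) ∧ (∀ᵐ r ∂(volume.restrict (Ioo (0 : ℝ) 1)), φ (ψ r) = r) := by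
  classical
  have : Nonempty X := nonempty_of_isProbabilityMeasure μ
  set e := embeddingReal X
  have he : MeasurableEmbedding e := measurableEmbedding_embeddingReal X
  set ν : Measure ℝ := μ.map e with hν
  have : IsProbabilityMeasure ν := Measure.isProbabilityMeasure_map he.measurable.aemeasurable
  have : NullSingletonClass ν := by
    constructor
    intro x
    rw [hν, Measure.map_apply he.measurable (measurableSet_singleton x)]
    rcases (e ⁻¹' {x}).eq_empty_or_nonempty with h | ⟨y, hy⟩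
    · rw [h, measure_empty]
    · have : e ⁻¹' {x} ⊆ {y} := by
        intro z hz
        exact he.injective (hz.trans hy.symm)
      exact measure_mono_null this (measure_singleton y)
  set U : Measure ℝ := volume.restrict (Ioo (0 : ℝ) 1) with hU
  have hQ : MeasurePreserving (B8aQ ν) U ν := ⟨B8a_measQ, B8a_mapQ⟩
  have hFm : Measurable (cdf ν) := (B8a_cont ν).measurable
  have hmem : ∀ᵐ u ∂U, u ∈ Ioo (0:ℝ) 1 := ae_restrict_mem measurableSet_Ioo
  have hFQ : ∀ᵐ u ∂U, cdf ν (B8aQ ν u) = u := by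
    filter_upwards [hmem] with u hu
    exact B8a_FQ hu
  have hF : MeasurePreserving (cdf ν) ν U := by
    refine ⟨hFm, ?_⟩
    have h2 : (U.map (B8aQ ν)).map (cdf ν) = U := by
      rw [Measure.map_map hFm hQ.measurable]
      have : (cdf ν ∘ B8aQ ν) =ᵐ[U] id := hFQ
      rw [Measure.map_congr this, Measure.map_id]
    rwa [hQ.map_eq] at h2
  have hQF : ∀ᵐ x ∂ν, B8aQ ν (cdf ν x) = x := by
    have hm : MeasurableSet {x | B8aQ ν (cdf ν x) = x} :=
      measurableSet_eq_fun (hQ.measurable.comp hFm) measurable_id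
    have h2 : ∀ᵐ x ∂(U.map (B8aQ ν)), x ∈ {x | B8aQ ν (cdf ν x) = x} := by
      refine (ae_map_iff hQ.measurable.aemeasurable hm).2 ?_
      filter_upwards [hFQ] with u hu
      show B8aQ ν (cdf ν (B8aQ ν u)) = B8aQ ν u
      rw [hu]
    rwa [hQ.map_eq] at h2
  have heμ : MeasurePreserving e μ ν := ⟨he.measurable, rfl⟩
  have hinv : MeasurePreserving he.invFun ν μ := by
    refine ⟨he.measurable_invFun, ?_⟩
    rw [hν, Measure.map_map he.measurable_invFun he.measurable]
    have : he.invFun ∘ e = id := funext he.leftInverse_invFun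
    rw [this, Measure.map_id]
  refine ⟨fun x => cdf ν (e x), fun r => he.invFun (B8aQ ν r), hF.comp heμ, hinv.comp hQ, ?_, ?_⟩
  · have : ∀ᵐ x ∂μ, B8aQ ν (cdf ν (e x)) = e x := heμ.quasiMeasurePreserving.ae hQF
    filter_upwards [this] with x hx
    simp only [hx]
    exact he.leftInverse_invFun x
  · have hr : ∀ᵐ y ∂ν, y ∈ range e := by
      refine (ae_map_iff he.measurable.aemeasurable he.measurableSet_range).2 ?_
      exact Eventually.of_forall fun x => mem_range_self x
    have hr' : ∀ᵐ r ∂U, B8aQ ν r ∈ range e := hQ.quasiMeasurePreserving.ae hr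
    filter_upwards [hr', hFQ] with r h1 h2
    obtain ⟨x, hx⟩ := h1
    show cdf ν (e (he.invFun (B8aQ ν r))) = r
    rw [← hx, he.leftInverse_invFun x, hx, h2]

end KakC
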