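import Pool.Agent.Helper8.Kak.DefsC
import Pool.Agent.Helper58.Kak.B8a

/-!
# Module B8b of MP_013a6c_an
Every standard nonatomic probability space is isomorphic mod 0 to `(PP, lam)`.
-/

set_option autoImplicit false

open MeasureTheory Set Topology Filter
open scoped symmDiff ENNReal ProbabilityTheory

namespace KakC

private lemma B8b_prob : IsProbabilityMeasure lam := by
  unfold lam
  infer_instance

private lemma B8b_cyl (ξ : PP) (n : ℕ) : lam {ξ} ≤ ((2:ℝ≥0∞)⁻¹) ^ n := by
  have h1 : ({ξ} : Set PP) ⊆ Set.pi (Finset.range n : Set ℕ) (fun i => {ξ i}) := by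
    intro η hη i _
    rw [mem_singleton_iff] at hη
    rw [hη]
    exact mem_singleton _
  refine (measure_mono h1).trans ?_
  unfold lam
  rw [Measure.infinitePi_pi _ (fun i _ => measurableSet_singleton _)]
  refine (Finset.prod_le_pow_card _ _ _ (fun i _ => ?_)).trans (by rw [Finset.card_range])
  rw [ProbabilityTheory.uniformOn_univ]
  have hcard : (2:ℝ≥0∞) ≤ (Fintype.card (Fin (N i) × Fin (B i)) : ℝ≥0∞) := by
    rw [Fintype.card_prod, Fintype.card_fin, Fintype.card_fin]
    have hN : 2 ≤ N i := by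
      unfold N
      calc 2 = 2 ^ 1 := rfl
        _ ≤ 2 ^ ((i + 3) ^ 2) := Nat.pow_le_pow_right (by norm_num) (Nat.one_le_pow _ _ (by omega))
    have hB := B_pos i
    have : 2 ≤ N i * B i := by nlinarith
    exact_mod_cast this
  rw [Measure.count_singleton, one_div]
  exact ENNReal.inv_le_inv.2 hcard

theorem lam_noAtoms : NullSingletonClass lam := by
  constructor
  intro ξ
  have h := ENNReal.tendsto_pow_atTop_nhds_zero_of_lt_one (r := (2:ℝ≥0∞)⁻¹) (by simp)
  exact le_antisymm (ge_of_tendsto' h (B8b_cyl ξ)) (zero_le)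

theorem exists_model {X : Type*} [MeasurableSpace X] [StandardBorelSpace X] (μ : Measure X)
    [IsProbabilityMeasure μ] [NullSingletonClass μ] :
    ∃ (φ : PP → X) (ψ : X → PP), MeasurePreserving φ lam μ ∧ MeasurePreserving ψ μ lam ∧
      (∀ᵐ ξ ∂lam, ψ (φ ξ) = ξ) ∧ (∀ᵐ x ∂μ, φ (ψ x) = x) := by
  have := B8b_prob
  have := lam_noAtoms
  obtain ⟨φ₁, ψ₁, h1, h2, h3, h4⟩ := exists_real_model μ
  obtain ⟨φ₂, ψ₂, g1, g2, g3, g4⟩ := exists_real_model lam
  refine ⟨fun ξ => ψ₁ (φ₂ ξ), fun x => ψ₂ (φ₁ x), h2.comp g1, g2.comp h1, ?_, ?_⟩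
  · filter_upwards [g1.quasiMeasurePreserving.ae h4, g3] with ξ e1 e2
    rw [e1, e2]
  · filter_upwards [h1.quasiMeasurePreserving.ae g4, h3] with x e1 e2
    rw [e1, e2]

end KakC
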